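import Pool.Agent.Helper51_OCG.Core

/-!
The biased oriented-cycle game on the edges of the complete graph with vertex set `Fin n`.
-/

namespace Pool.Agent.Helper51_OCG

open Finset

/-- A position of the game: the set of the arcs chosen so far; `(u, v)` is the edge `uv`
directed from `u` to `v`. -/
abbrev Position (n : ℕ) := Finset (Fin n × Fin n)

/-- A position is legal if it has no loop and no edge is directed both ways. -/
def Legal {n : ℕ} (P : Position n) : Prop := ∀ u v, (u, v) ∈ P → u ≠ v ∧ (v, u) ∉ P

/-- The undirected edges `uv`, `u < v`, of a position. -/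
def undirected {n : ℕ} (P : Position n) : Finset (Fin n × Fin n) :=
  univ.filter fun e => e.1 < e.2 ∧ (e.1, e.2) ∉ P ∧ (e.2, e.1) ∉ P

/-- The position contains a directed closed walk, equivalently a directed cycle. -/
def HasDirectedCycle {n : ℕ} (P : Position n) : Prop :=
  ∃ v, Relation.TransGen (fun x y => (x, y) ∈ P) v v

/-- Monotone rule with bias `b`: OBreaker directs between `1` and `b` edges. The first
argument is the number of undirected edges before his move, the second one the number of edges
that he directs. -/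
def monotoneRule (b : ℕ) : ℕ → ℕ → Prop := fun _ s => 1 ≤ s ∧ s ≤ b

/-- Strict rule with bias `b`: OBreaker directs exactly `b` edges, or all remaining ones if
there are fewer than `b`. -/
def strictRule (b : ℕ) : ℕ → ℕ → Prop := fun r s => s = min b r

/-- `Q` is a legal position that OBreaker can reach from `P` in one move. -/
def Reply {n : ℕ} (rule : ℕ → ℕ → Prop) (P Q : Position n) : Prop :=
  Legal Q ∧ P ⊆ Q ∧ rule (undirected P).card (Q \ P).card

/-- OMaker, to move in the position `P`, can force that the final tournament contains a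
directed cycle. -/
inductive OMakerWins {n : ℕ} (rule : ℕ → ℕ → Prop) : Position n → Prop
  | finished (P : Position n) (hP : undirected P = ∅) (hc : HasDirectedCycle P) :
      OMakerWins rule P
  | play (P : Position n) (u v : Fin n) (huv : u ≠ v) (h1 : (u, v) ∉ P) (h2 : (v, u) ∉ P)
      (hfull : undirected (insert (u, v) P) = ∅ → HasDirectedCycle (insert (u, v) P))
      (hreply : undirected (insert (u, v) P) ≠ ∅ →
        ∀ Q, Reply rule (insert (u, v) P) Q → OMakerWins rule Q) :
      OMakerWins rule P

section

variable {n : ℕ} {rule : ℕ → ℕ → Prop}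

lemma mem_undirected {P : Position n} {e : Fin n × Fin n} :
    e ∈ undirected P ↔ e.1 < e.2 ∧ (e.1, e.2) ∉ P ∧ (e.2, e.1) ∉ P := by
  simp [undirected]

lemma undirected_eq_empty {P : Position n} (h : undirected P = ∅) {u v : Fin n} (huv : u ≠ v) :
    (u, v) ∈ P ∨ (v, u) ∈ P := by
  by_contra hno
  rw [not_or] at hno
  rcases lt_or_gt_of_ne huv with h1 | h1
  · have : (u, v) ∈ undirected P := mem_undirected.mpr ⟨h1, hno.1, hno.2⟩
    rw [h] at this
    simp at this
  · have : (v, u) ∈ undirected P := mem_undirected.mpr ⟨h1, hno.2, hno.1⟩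
    rw [h] at this
    simp at this

lemma undirected_anti {P Q : Position n} (h : P ⊆ Q) : undirected Q ⊆ undirected P := by
  intro e he
  rw [mem_undirected] at he ⊢
  exact ⟨he.1, fun h1 => he.2.1 (h h1), fun h1 => he.2.2 (h h1)⟩

lemma HasDirectedCycle.mono {P Q : Position n} (h : P ⊆ Q) (hc : HasDirectedCycle P) :
    HasDirectedCycle Q := by
  obtain ⟨v, hv⟩ := hc
  exact ⟨v, Relation.TransGen.mono
    (show (fun x y => (x, y) ∈ P) ≤ (fun x y => (x, y) ∈ Q) from fun x y hxy => h hxy) v v hv⟩

/-- a position with a directed cycle is won -/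
lemma wins_of_cycle : ∀ (k : ℕ) (P : Position n), (undirected P).card = k →
    HasDirectedCycle P → OMakerWins rule P := by
  intro k
  induction k using Nat.strong_induction_on with
  | _ k ih =>
  intro P hk hc
  by_cases h0 : undirected P = ∅
  · exact .finished P h0 hc
  · obtain ⟨e, he⟩ := nonempty_iff_ne_empty.mpr h0
    have he' := mem_undirected.mp he
    refine .play P e.1 e.2 he'.1.ne he'.2.1 he'.2.2 (fun _ => hc.mono (subset_insert _ _)) ?_
    intro _ Q hQ
    have hPQ : insert (e.1, e.2) P ⊆ Q := hQ.2.1
    have hlt : (undirected Q).card < k := by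
      rw [← hk]
      apply card_lt_card
      rw [Finset.ssubset_iff_of_subset (undirected_anti ((subset_insert _ _).trans hPQ))]
      refine ⟨e, he, ?_⟩
      rw [mem_undirected]
      intro h
      exact h.2.1 (hPQ (mem_insert_self _ _))
    exact ih _ hlt Q rfl (hc.mono ((subset_insert _ _).trans hPQ))

/-- The legal positions that OMaker (to move) cannot win. -/
def Lost (rule : ℕ → ℕ → Prop) : Set (Position n) := {P | Legal P ∧ ¬ OMakerWins rule P}

lemma lost_ext {b : ℕ} (hrule : ∀ r s, rule r s → s ≤ b) {P : Position n}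
    (hP : P ∈ Lost rule) {u v : Fin n} (huv : u ≠ v) (h1 : (u, v) ∉ P) (h2 : (v, u) ∉ P) :
    ∃ Q ∈ (Lost rule : Set (Position n)), P ⊆ Q ∧ (u, v) ∈ Q ∧ Q.card ≤ P.card + b + 1 := by
  by_contra hno
  push Not at hno
  refine hP.2 (.play P u v huv h1 h2 ?_ ?_)
  · intro hfull
    by_contra hc
    have hlegal : Legal (insert (u, v) P) := by
      intro x y hxy
      rw [mem_insert, Prod.mk.injEq] at hxy
      rw [mem_insert, Prod.mk.injEq, not_or]
      rcases hxy with ⟨rfl, rfl⟩ | hxy
      · exact ⟨huv, fun h => huv h.2, h2⟩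
      · refine ⟨(hP.1 x y hxy).1, ?_, (hP.1 x y hxy).2⟩
        rintro ⟨rfl, rfl⟩
        exact h2 hxy
    have hlost : insert (u, v) P ∈ (Lost rule : Set (Position n)) := by
      refine ⟨hlegal, fun hw => ?_⟩
      cases hw with
      | finished _ _ hc' => exact hc hc'
      | play _ x y hxy h3 h4 _ _ =>
        rcases undirected_eq_empty hfull hxy with h5 | h5
        · exact h3 h5
        · exact h4 h5
    have := hno _ hlost (subset_insert _ _) (mem_insert_self _ _)
    have h3 := card_insert_le (u, v) P
    omega
  · intro _ Q hQ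
    by_contra hw
    have h3 := hno Q ⟨hQ.1, hw⟩ ((subset_insert _ _).trans hQ.2.1)
      (hQ.2.1 (mem_insert_self _ _))
    have h4 := hrule _ _ hQ.2.2
    rw [card_sdiff_of_subset hQ.2.1] at h4
    have h5 := card_insert_le (u, v) P
    omega

/-- the lost positions form an alive class -/
theorem lost_alive {b : ℕ} (hrule : ∀ r s, rule r s → s ≤ b)
    (h0 : ¬ OMakerWins rule (∅ : Position n)) : Alive b (Lost rule : Set (Position n)) where
  empty := ⟨fun u v h => by simp at h, h0⟩
  irr := fun P hP a ha => (hP.1 a a ha).1 rfl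
  trans := by
    intro P hP a c d hac hcd
    have hnc : ∀ Q ∈ (Lost rule : Set (Position n)), ¬ HasDirectedCycle Q :=
      fun Q hQ hc => hQ.2 (wins_of_cycle _ Q rfl hc)
    have hda : d ≠ a := by
      rintro rfl
      exact (hP.1 _ _ hac).2 hcd
    by_contra had
    by_cases hda' : (d, a) ∈ P
    · exact hnc P hP ⟨a, (Relation.TransGen.single hac).tail hcd |>.tail hda'⟩
    · obtain ⟨Q, hQ, hPQ, hdaQ, -⟩ := lost_ext hrule hP hda hda' had
      exact hnc Q hQ
        ⟨a, (Relation.TransGen.single (hPQ hac)).tail (hPQ hcd) |>.tail hdaQ⟩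
  ext := fun P hP a c hac h1 h2 => lost_ext hrule hP hac h1 h2

end

end Pool.Agent.Helper51_OCG
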