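import Mathlib

/-!
Combinatorial core of the lower bound for the biased oriented-cycle game: a class of
strict orders in which every incomparable pair can be ordered at the price of at most
`b + 1` new relations does not exist when `b` is small.
-/

namespace Pool.Agent.Helper51_OCG

open Finset

variable {V : Type*} [Fintype V] [DecidableEq V]

/-- strict down set -/
def down (P : Finset (V × V)) (v : V) : Finset V := univ.filter fun w => (w, v) ∈ P

/-- strict up set -/
def up (P : Finset (V × V)) (v : V) : Finset V := univ.filter fun w => (v, w) ∈ P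

/-- the properties of the class of positions that the second player can survive -/
structure Alive (b : ℕ) (B : Set (Finset (V × V))) : Prop where
  empty : ∅ ∈ B
  irr : ∀ P ∈ B, ∀ a, (a, a) ∉ P
  trans : ∀ P ∈ B, ∀ a c d, (a, c) ∈ P → (c, d) ∈ P → (a, d) ∈ P
  ext : ∀ P ∈ B, ∀ a c, a ≠ c → (a, c) ∉ P → (c, a) ∉ P →
    ∃ Q ∈ B, P ⊆ Q ∧ (a, c) ∈ Q ∧ Q.card ≤ P.card + b + 1


@[simp] lemma mem_down {P : Finset (V × V)} {v w : V} : w ∈ down P v ↔ (w, v) ∈ P := by
  classical
  simp [down]


@[simp] lemma mem_up {P : Finset (V × V)} {v w : V} : w ∈ up P v ↔ (v, w) ∈ P := by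
  classical
  simp [up]

lemma card_eq_sum_down (P : Finset (V × V)) : P.card = ∑ v, (down P v).card := by
  rw [Finset.card_eq_sum_card_fiberwise (f := Prod.snd) (t := univ) (by simp)]
  refine Finset.sum_congr rfl fun v _ => ?_
  refine Finset.card_bij (fun e _ => e.1) ?_ ?_ ?_
  · rintro ⟨a, c⟩ h
    simp only [mem_filter] at h
    obtain ⟨h1, rfl⟩ := h
    simpa using h1
  · rintro ⟨a, c⟩ h ⟨a', c'⟩ h' heq
    simp only [mem_filter] at h h'
    obtain ⟨_, rfl⟩ := h
    obtain ⟨_, rfl⟩ := h'
    simp only at heq
    rw [heq]
  · intro w hw
    exact ⟨(w, v), by simpa using hw, rfl⟩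

lemma down_mono {P Q : Finset (V × V)} (h : P ⊆ Q) (v : V) : down P v ⊆ down Q v := by
  intro w hw
  simp only [mem_down] at hw ⊢
  exact h hw

/-- Lemma A. -/
theorem lemmaA {b : ℕ} {B : Set (Finset (V × V))} (hB : Alive b B) :
    ∀ (k : ℕ) (P : Finset (V × V)), P ∈ B → ∀ v : V,
      Fintype.card V - ((down P v).card + 1) = k →
      (Fintype.card V : ℤ) * (Fintype.card V - 1)
        - ((down P v).card + 1) * (down P v).card
        - 2 * (b + 1) * (Fintype.card V - ((down P v).card + 1))
        ≤ 2 * ∑ z ∈ univ \ insert v (down P v), ((down P z).card : ℤ) := by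
  intro k
  induction k using Nat.strong_induction_on with
  | _ k ih =>
  intro P hP v hk
  have hv : v ∉ down P v := by simpa using hB.irr P hP v
  have hcard : (insert v (down P v)).card = (down P v).card + 1 :=
    card_insert_of_notMem hv
  have hle : (down P v).card + 1 ≤ Fintype.card V := by
    rw [← hcard]; exact card_le_univ _
  rcases (univ \ insert v (down P v)).eq_empty_or_nonempty with hW | hW
  · have h1 : insert v (down P v) = univ := by
      rw [sdiff_eq_empty_iff_subset] at hW
      exact univ_subset_iff.mp hW
    have h2 : (down P v).card + 1 = Fintype.card V := by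
      rw [← hcard, h1, card_univ]
    rw [hW, sum_empty]
    have h3 : ((down P v).card : ℤ) + 1 = Fintype.card V := by exact_mod_cast h2
    have h4 : ((down P v).card : ℤ) = Fintype.card V - 1 := by linarith
    rw [h4]
    ring_nf
    exact le_refl _
  · obtain ⟨w, hw, hmin⟩ := exists_min_image _ (fun z => (down P z).card) hW
    have hw' : w ≠ v ∧ (w, v) ∉ P := by
      simp only [mem_sdiff, mem_univ, true_and, mem_insert, mem_down, not_or] at hw
      exact hw
    by_cases hvw : (v, w) ∈ P
    · -- w covers v
      have hsub : insert v (down P v) ⊆ down P w := by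
        intro z hz
        simp only [mem_insert, mem_down] at hz ⊢
        rcases hz with rfl | hz
        · exact hvw
        · exact hB.trans P hP _ _ _ hz hvw
      have hsup : down P w ⊆ insert v (down P v) := by
        intro z hz
        by_contra hzn
        have hzW : z ∈ univ \ insert v (down P v) := by simp only [mem_sdiff, mem_univ, true_and]; exact hzn
        have h1 := hmin z hzW
        have h2 : down P z ⊂ down P w := by
          rw [Finset.ssubset_iff_of_subset]
          · exact ⟨z, hz, by simpa using hB.irr P hP z⟩
          · intro t ht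
            simp only [mem_down] at ht hz ⊢
            exact hB.trans P hP _ _ _ ht hz
        have h3 := card_lt_card h2
        omega
      have heq : down P w = insert v (down P v) := Subset.antisymm hsup hsub
      have hcw : (down P w).card = (down P v).card + 1 := by rw [heq, hcard]
      have hww : w ∉ down P w := by simpa using hB.irr P hP w
      have hlew : (down P w).card + 1 ≤ Fintype.card V := by
        rw [← card_insert_of_notMem hww]; exact card_le_univ _
      have hih := ih (Fintype.card V - ((down P w).card + 1)) (by omega) P hP w rfl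
      have hWeq : univ \ insert v (down P v) = insert w (univ \ insert w (down P w)) := by
        ext z
        rw [← heq]
        simp only [mem_sdiff, mem_univ, true_and, mem_insert, not_or]
        constructor
        · intro h
          by_cases hz : z = w
          · exact Or.inl hz
          · exact Or.inr ⟨hz, h⟩
        · rintro (rfl | h)
          · exact hww
          · exact h.2
      rw [hWeq, sum_insert (by simp)]
      have hcw' : ((down P w).card : ℤ) = (down P v).card + 1 := by exact_mod_cast hcw
      rw [hcw'] at hih ⊢
      have hb0 : (0 : ℤ) ≤ b := by positivity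
      nlinarith [hih, hb0]
    · -- attack v < w
      obtain ⟨Q, hQ, hPQ, hvwQ, hQcard⟩ := hB.ext P hP v w (Ne.symm hw'.1) hvw hw'.2
      have hsub : insert v (down P v) ⊆ down Q w := by
        intro z hz
        simp only [mem_insert, mem_down] at hz ⊢
        rcases hz with rfl | hz
        · exact hvwQ
        · exact hB.trans Q hQ _ _ _ (hPQ hz) hvwQ
      have hww : w ∉ down Q w := by simpa using hB.irr Q hQ w
      have hlew : (down Q w).card + 1 ≤ Fintype.card V := by
        rw [← card_insert_of_notMem hww]; exact card_le_univ _
      have hdd : (down P v).card + 1 ≤ (down Q w).card := by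
        rw [← hcard]; exact card_le_card hsub
      have hih := ih (Fintype.card V - ((down Q w).card + 1)) (by omega) Q hQ w rfl
      set A := insert w (down Q w) \ insert v (down P v) with hA
      set W' := univ \ insert w (down Q w) with hW'
      have hWeq : univ \ insert v (down P v) = A ∪ W' := by
        ext z
        simp only [hA, hW', mem_sdiff, mem_univ, true_and, mem_union]
        constructor
        · intro h
          by_cases hz : z ∈ insert w (down Q w)
          · exact Or.inl ⟨hz, h⟩
          · exact Or.inr hz
        · rintro (h | h)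
          · exact h.2
          · intro h2
            exact h (mem_insert_of_mem (hsub h2))
      have hdisj : Disjoint A W' := by
        rw [Finset.disjoint_left]
        intro z hz hz'
        simp only [hA, hW', mem_sdiff, mem_univ, true_and] at hz hz'
        exact hz' hz.1
      have hAcard : A.card = (down Q w).card + 1 - ((down P v).card + 1) := by
        rw [hA, card_sdiff_of_subset (hsub.trans (subset_insert _ _)),
          card_insert_of_notMem hww, hcard]
      have hsumA : (A.card : ℤ) * (down P w).card ≤ ∑ z ∈ A, ((down P z).card : ℤ) := by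
        rw [← nsmul_eq_mul]
        refine Finset.card_nsmul_le_sum _ _ _ fun z hz => ?_
        have : z ∈ univ \ insert v (down P v) := by
          rw [hWeq]; exact mem_union_left _ hz
        exact_mod_cast hmin z this
      -- counting the new relations
      have hcount : ((down Q w).card : ℤ) - (down P w).card
          + (∑ z ∈ W', ((down Q z).card : ℤ) - ∑ z ∈ W', ((down P z).card : ℤ)) ≤ b + 1 := by
        have h1 : (Q.card : ℤ) = ∑ z, ((down Q z).card : ℤ) := by
          rw [card_eq_sum_down Q]; push_cast; rfl
        have h2 : (P.card : ℤ) = ∑ z, ((down P z).card : ℤ) := by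
          rw [card_eq_sum_down P]; push_cast; rfl
        have h3 : (Q.card : ℤ) ≤ P.card + b + 1 := by exact_mod_cast hQcard
        have h4 : ∑ z ∈ insert w W', (((down Q z).card : ℤ) - (down P z).card)
            ≤ ∑ z, (((down Q z).card : ℤ) - (down P z).card) := by
          refine Finset.sum_le_sum_of_subset_of_nonneg (subset_univ _) fun z _ _ => ?_
          have := card_le_card (down_mono hPQ z)
          have : ((down P z).card : ℤ) ≤ (down Q z).card := by exact_mod_cast this
          linarith
        rw [sum_insert (by simp [hW']), sum_sub_distrib, sum_sub_distrib] at h4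
        linarith
      rw [hWeq, sum_union hdisj]
      have hAz : (A.card : ℤ) = (down Q w).card - (down P v).card := by
        have h1 : A.card + (down P v).card = (down Q w).card := by omega
        have h2 : (A.card : ℤ) + (down P v).card = (down Q w).card := by exact_mod_cast h1
        linarith
      have hddz : ((down P v).card : ℤ) + 1 ≤ (down Q w).card := by exact_mod_cast hdd
      have hpos : (0 : ℤ) ≤ ∑ z ∈ W', ((down Q z).card : ℤ) - ∑ z ∈ W', ((down P z).card : ℤ) := by
        rw [← sum_sub_distrib]
        refine Finset.sum_nonneg fun z _ => ?_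
        have := card_le_card (down_mono hPQ z)
        have : ((down P z).card : ℤ) ≤ (down Q z).card := by exact_mod_cast this
        linarith
      rw [hAz] at hsumA
      generalize ((down Q w).card : ℤ) = d' at *
      generalize ((down P v).card : ℤ) = d at *
      generalize ((down P w).card : ℤ) = g at *
      generalize (∑ z ∈ A, ((down P z).card : ℤ)) = SA at *
      generalize (∑ z ∈ W', ((down P z).card : ℤ)) = SP at *
      generalize (∑ z ∈ W', ((down Q z).card : ℤ)) = SQ at *
      generalize (Fintype.card V : ℤ) = N at *
      have hg : d' - b - 1 ≤ g := by linarith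
      -- 2 (SA + SP) ≥ 2 (d'-d) g + 2 SQ - 2(b+1) + 2(d' - g)
      have h5 : 0 ≤ (d' - d - 1) * (g - (d' - b - 1)) :=
        mul_nonneg (by linarith) (by linarith)
      have h6 : 0 ≤ (d' - d) * (d' - d - 1) := mul_nonneg (by linarith) (by linarith)
      nlinarith [h5, h6, hih, hsumA, hcount]

/-- Closed form of Lemma A. -/
theorem lemmaA_closed {b : ℕ} {B : Set (Finset (V × V))} (hB : Alive b B)
    {P : Finset (V × V)} (hP : P ∈ B) (v : V) :
    ((Fintype.card V : ℝ) - (b + 3 / 2)) ^ 2 - 2 * P.card
      ≤ (((down P v).card : ℝ) + 1 - (b + 3 / 2)) ^ 2 := by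
  have h1 := lemmaA hB _ P hP v rfl
  have h2 : ∑ z ∈ univ \ insert v (down P v), ((down P z).card : ℤ) ≤ P.card := by
    rw [card_eq_sum_down P]
    push_cast
    exact Finset.sum_le_sum_of_subset_of_nonneg (subset_univ _) fun z _ _ => by positivity
  have h3 : (Fintype.card V : ℤ) * (Fintype.card V - 1)
        - ((down P v).card + 1) * (down P v).card
        - 2 * (b + 1) * (Fintype.card V - ((down P v).card + 1)) ≤ 2 * P.card := by linarith
  have h4 : (Fintype.card V : ℝ) * (Fintype.card V - 1)
        - ((down P v).card + 1) * (down P v).card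
        - 2 * (b + 1) * (Fintype.card V - ((down P v).card + 1)) ≤ 2 * P.card := by
    exact_mod_cast h3
  nlinarith [h4]

lemma sum_card_inter (P : Finset (V × V)) (S : Finset V) :
    ∑ w, (down P w ∩ S).card = ∑ p ∈ S, (up P p).card := by
  have h1 : ∀ w, (down P w ∩ S).card = ∑ p ∈ S, if (p, w) ∈ P then 1 else 0 := by
    intro w
    rw [Finset.sum_boole, Nat.cast_id]
    congr 1
    ext p
    simp [and_comm]
  have h2 : ∀ p, (up P p).card = ∑ w, if (p, w) ∈ P then 1 else 0 := by
    intro p
    rw [Finset.sum_boole, Nat.cast_id]
    rfl
  simp_rw [h1, h2]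
  exact Finset.sum_comm

/-- NEST: the positions are almost nested. -/
theorem nest {b : ℕ} {B : Set (Finset (V × V))} (hB : Alive b B)
    {P : Finset (V × V)} (hP : P ∈ B) (y : V)
    (hy : ∀ w, (down P w).card ≤ (down P y).card) :
    ∑ w, ((down P w \ down P y).card) ^ 2 ≤ Fintype.card V * (b + 1) := by
  have key : ∀ e : V, ∑ w ∈ univ.filter (fun w => e ∈ down P w \ down P y),
      (down P w \ down P y).card ≤ b + 1 := by
    intro e
    rcases (univ.filter (fun w => e ∈ down P w \ down P y)).eq_empty_or_nonempty with h0 | ⟨w0, hw0⟩
    · rw [h0]; simp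
    · simp only [mem_filter, mem_univ, true_and, mem_sdiff, mem_down] at hw0
      have hno : ∀ w, (e, w) ∈ P → (y, w) ∉ P := by
        intro w hew hyw
        have h1 : down P y ⊂ down P w := by
          rw [Finset.ssubset_iff_of_subset]
          · exact ⟨y, by simpa using hyw, by simpa using hB.irr P hP y⟩
          · intro t ht
            simp only [mem_down] at ht ⊢
            exact hB.trans P hP _ _ _ ht hyw
        have h2 := card_lt_card h1
        have h3 := hy w
        omega
      have hye : y ≠ e := by
        rintro rfl
        exact hno w0 hw0.1 hw0.1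
      have hye' : (y, e) ∉ P := fun h => hno w0 hw0.1 (hB.trans P hP _ _ _ h hw0.1)
      obtain ⟨Q, hQ, hPQ, hyeQ, hQc⟩ := hB.ext P hP y e hye hye' hw0.2
      have h1 : (univ.filter (fun w => e ∈ down P w \ down P y)).biUnion
          (fun w => (down P y \ down P w) ×ˢ {w}) ⊆ Q \ P := by
        intro x hx
        simp only [mem_biUnion, mem_filter, mem_univ, true_and, mem_product, mem_sdiff,
          mem_down, mem_singleton] at hx
        obtain ⟨w, ⟨hew, -⟩, ⟨hpy, hpw⟩, hxw⟩ := hx
        have hx' : x = (x.1, w) := by rw [← hxw]
        rw [mem_sdiff, hx']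
        exact ⟨hB.trans Q hQ _ _ _ (hB.trans Q hQ _ _ _ (hPQ hpy) hyeQ) (hPQ hew), hpw⟩
      have h2 := card_le_card h1
      rw [card_biUnion] at h2
      · rw [card_sdiff_of_subset hPQ] at h2
        have h3 : ∑ w ∈ univ.filter (fun w => e ∈ down P w \ down P y),
            (down P w \ down P y).card ≤
            ∑ w ∈ univ.filter (fun w => e ∈ down P w \ down P y),
            ((down P y \ down P w) ×ˢ {w}).card := by
          refine Finset.sum_le_sum fun w _ => ?_
          rw [card_product, card_singleton, mul_one]
          have h4 := hy w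
          have h5 := card_sdiff_add_card_inter (down P w) (down P y)
          have h6 := card_sdiff_add_card_inter (down P y) (down P w)
          rw [inter_comm] at h6
          omega
        omega
      · intro w _ w' _ hww'
        rw [Function.onFun, Finset.disjoint_left]
        intro x hx hx'
        simp only [mem_product, mem_singleton] at hx hx'
        exact hww' (hx.2.symm.trans hx'.2)
  calc ∑ w, ((down P w \ down P y).card) ^ 2
      = ∑ w, ∑ e ∈ down P w \ down P y, (down P w \ down P y).card := by
        refine Finset.sum_congr rfl fun w _ => ?_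
        rw [sum_const, smul_eq_mul, sq]
    _ = ∑ w, ∑ e, if e ∈ down P w \ down P y then (down P w \ down P y).card else 0 := by
        refine Finset.sum_congr rfl fun w _ => ?_
        rw [← Finset.sum_filter]
        congr 1
        ext e; simp
    _ = ∑ e, ∑ w, if e ∈ down P w \ down P y then (down P w \ down P y).card else 0 :=
        Finset.sum_comm
    _ = ∑ e, ∑ w ∈ univ.filter (fun w => e ∈ down P w \ down P y),
          (down P w \ down P y).card := by
        refine Finset.sum_congr rfl fun e _ => ?_
        rw [Finset.sum_filter]
    _ ≤ ∑ _e : V, (b + 1) := Finset.sum_le_sum fun e _ => key e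
    _ = Fintype.card V * (b + 1) := by rw [sum_const, card_univ, smul_eq_mul]

/-- Upper bound on the number of relations. -/
theorem card_le_of_nest {b : ℕ} {B : Set (Finset (V × V))} (hB : Alive b B)
    {P : Finset (V × V)} (hP : P ∈ B) (MD MU : ℕ)
    (hD : ∀ w, (down P w).card ≤ MD) (hU : ∀ w, (up P w).card ≤ MU) (hV : Nonempty V) :
    (P.card : ℝ) ≤ MD * MU + Fintype.card V * Real.sqrt (b + 1) := by
  obtain ⟨y, -, hy⟩ := exists_max_image (univ : Finset V) (fun w => (down P w).card)
    univ_nonempty
  have h1 := nest hB hP y (fun w => hy w (mem_univ w))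
  have h2 : P.card = ∑ w, (down P w ∩ down P y).card + ∑ w, (down P w \ down P y).card := by
    rw [card_eq_sum_down P, ← sum_add_distrib]
    refine Finset.sum_congr rfl fun w _ => ?_
    rw [add_comm, card_sdiff_add_card_inter]
  have h3 : ∑ w, (down P w ∩ down P y).card ≤ MD * MU := by
    rw [sum_card_inter]
    calc ∑ p ∈ down P y, (up P p).card ≤ ∑ _p ∈ down P y, MU := Finset.sum_le_sum fun p _ => hU p
      _ = (down P y).card * MU := by rw [sum_const, smul_eq_mul]
      _ ≤ MD * MU := Nat.mul_le_mul_right _ (hD y)
  have h4 : ((∑ w, (down P w \ down P y).card : ℕ) : ℝ) ≤ Fintype.card V * Real.sqrt (b + 1) := by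
    have h5 : ((∑ w, (down P w \ down P y).card : ℕ) : ℝ) ^ 2
        ≤ (Fintype.card V) ^ 2 * (b + 1) := by
      have h6 : (∑ w, (down P w \ down P y).card) ^ 2 ≤
          Fintype.card V * ∑ w, ((down P w \ down P y).card) ^ 2 := by
        have := sq_sum_le_card_mul_sum_sq (s := (univ : Finset V))
          (f := fun w => (down P w \ down P y).card)
        rwa [card_univ] at this
      have h7 : (∑ w, (down P w \ down P y).card) ^ 2 ≤
          Fintype.card V * (Fintype.card V * (b + 1)) := h6.trans (Nat.mul_le_mul_left _ h1)
      have h8 : (((∑ w, (down P w \ down P y).card) ^ 2 : ℕ) : ℝ) ≤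
          ((Fintype.card V * (Fintype.card V * (b + 1)) : ℕ) : ℝ) := by exact_mod_cast h7
      push_cast at h8 ⊢
      linarith
    have h9 : (Fintype.card V : ℝ) ^ 2 * (b + 1) = (Fintype.card V * Real.sqrt (b + 1)) ^ 2 := by
      rw [mul_pow, Real.sq_sqrt (by positivity)]
    rw [h9] at h5
    exact le_of_sq_le_sq h5 (by positivity)
  have h5 : ((∑ w, (down P w ∩ down P y).card : ℕ) : ℝ) ≤ MD * MU := by exact_mod_cast h3
  rw [h2]
  push_cast at h4 h5 ⊢
  linarith

end Pool.Agent.Helper51_OCG
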