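import Pool.Agent.Helper51_OCG.Alive

/-!
The class of positions the second player can survive does not exist for small bias.
-/

namespace Pool.Agent.Helper51_OCG

open Finset

variable {V : Type*} [Fintype V] [DecidableEq V]

lemma image_swap_swap (P : Finset (V × V)) : (P.image Prod.swap).image Prod.swap = P := by
  rw [Finset.image_image]
  simp

lemma mem_image_swap {P : Finset (V × V)} {a c : V} :
    (a, c) ∈ P.image Prod.swap ↔ (c, a) ∈ P := by
  simp only [mem_image, Prod.exists, Prod.swap_prod_mk, Prod.mk.injEq]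
  constructor
  · rintro ⟨x, y, h, rfl, rfl⟩; exact h
  · intro h; exact ⟨c, a, h, rfl, rfl⟩

lemma card_image_swap (P : Finset (V × V)) : (P.image Prod.swap).card = P.card :=
  card_image_of_injective _ Prod.swap_injective

/-- the dual class -/
theorem Alive.dual {b : ℕ} {B : Set (Finset (V × V))} (hB : Alive b B) :
    Alive b {P : Finset (V × V) | P.image Prod.swap ∈ B} where
  empty := by simpa using hB.empty
  irr := by
    intro P hP a ha
    exact hB.irr _ hP a (mem_image_swap.mpr ha)
  trans := by
    intro P hP a c d hac hcd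
    have := hB.trans _ hP d c a (mem_image_swap.mpr hcd) (mem_image_swap.mpr hac)
    exact mem_image_swap.mp this
  ext := by
    intro P hP a c hac h1 h2
    obtain ⟨Q, hQ, hPQ, hca, hQc⟩ := hB.ext _ hP c a (Ne.symm hac)
      (fun h => h1 (mem_image_swap.mp h)) (fun h => h2 (mem_image_swap.mp h))
    refine ⟨Q.image Prod.swap, ?_, ?_, mem_image_swap.mpr hca, ?_⟩
    · show (Q.image Prod.swap).image Prod.swap ∈ B
      rw [image_swap_swap]; exact hQ
    · have h3 := Finset.image_subset_image (f := Prod.swap) hPQ
      rw [image_swap_swap] at h3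
      exact h3
    · rw [card_image_swap]
      rw [card_image_swap] at hQc
      exact hQc

lemma down_image_swap (P : Finset (V × V)) (v : V) : down (P.image Prod.swap) v = up P v := by
  ext w
  rw [mem_down, mem_up, mem_image_swap]

theorem lemmaA_closed_up {b : ℕ} {B : Set (Finset (V × V))} (hB : Alive b B)
    {P : Finset (V × V)} (hP : P ∈ B) (v : V) :
    ((Fintype.card V : ℝ) - (b + 3 / 2)) ^ 2 - 2 * P.card
      ≤ (((up P v).card : ℝ) + 1 - (b + 3 / 2)) ^ 2 := by
  have h := lemmaA_closed hB.dual (P := P.image Prod.swap)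
    (by show (P.image Prod.swap).image Prod.swap ∈ B; rw [image_swap_swap]; exact hP) v
  rwa [down_image_swap, card_image_swap] at h

/-- growth of a down set -/
lemma down_growth {P Q : Finset (V × V)} (hPQ : P ⊆ Q) (v : V) :
    (down Q v).card + P.card ≤ (down P v).card + Q.card := by
  have h1 : (down Q v \ down P v).image (fun w => (w, v)) ⊆ Q \ P := by
    intro x hx
    simp only [mem_image, mem_sdiff, mem_down] at hx
    obtain ⟨w, ⟨h1, h2⟩, rfl⟩ := hx
    exact mem_sdiff.mpr ⟨h1, h2⟩
  have h2 := card_le_card h1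
  rw [card_image_of_injective _ (fun a c h => by simpa using h), card_sdiff_of_subset hPQ,
    card_sdiff_of_subset (down_mono hPQ v)] at h2
  have h3 := card_le_card (down_mono hPQ v)
  have h4 := card_le_card hPQ
  omega

lemma up_growth {P Q : Finset (V × V)} (hPQ : P ⊆ Q) (v : V) :
    (up Q v).card + P.card ≤ (up P v).card + Q.card := by
  have h := down_growth (Finset.image_subset_image (f := Prod.swap) hPQ) v
  rwa [down_image_swap, down_image_swap, card_image_swap, card_image_swap] at h

/-- The core theorem. -/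
theorem no_alive {b : ℕ} {B : Set (Finset (V × V))} (hB : Alive b B)
    (hn : 1 < Fintype.card V) (hbn : (b : ℝ) + 3 / 2 < Fintype.card V) :
    ((Fintype.card V : ℝ) - (b + 3 / 2)) ^ 2 - (2 * (b + 3 / 2) / 3 + 1) ^ 2 ≤
      2 * (b + 1) + 2 * ((b + 3 / 2) / 3) ^ 2 + 2 * (Fintype.card V * Real.sqrt (b + 1)) := by
  by_contra hcon
  push Not at hcon
  have hV : Nonempty V := Fintype.card_pos_iff.mp (by omega)
  set N : ℝ := (Fintype.card V : ℝ) with hN
  set β : ℝ := (b : ℝ) + 3 / 2 with hβ
  have hβ0 : (3 / 2 : ℝ) ≤ β := by rw [hβ]; have : (0 : ℝ) ≤ b := by positivity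
                                   linarith
  have LD : ∀ P ∈ B, ∀ v, (N - β) ^ 2 - 2 * (P.card : ℝ) ≤ (((down P v).card : ℝ) + 1 - β) ^ 2 :=
    fun P hP v => lemmaA_closed hB hP v
  have LU : ∀ P ∈ B, ∀ v, (N - β) ^ 2 - 2 * (P.card : ℝ) ≤ (((up P v).card : ℝ) + 1 - β) ^ 2 :=
    fun P hP v => lemmaA_closed_up hB hP v
  set q : ℝ := 2 * β / 3 + 1 with hq
  have hq0 : 0 < q := by rw [hq]; linarith
  -- low positions
  let low : Finset (V × V) → Prop := fun P => P ∈ B ∧ 2 * (P.card : ℝ) ≤ (N - β) ^ 2 - q ^ 2 ∧
    (∀ v, ((down P v).card : ℝ) + 1 < β) ∧ (∀ v, ((up P v).card : ℝ) + 1 < β)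
  have hTpos : 0 ≤ (N - β) ^ 2 - q ^ 2 := by
    have h0 : 0 ≤ 2 * ((b : ℝ) + 1) + 2 * (β / 3) ^ 2 + 2 * (N * Real.sqrt (b + 1)) := by
      positivity
    linarith
  have hlow0 : low ∅ := by
    refine ⟨hB.empty, by simpa using hTpos, ?_, ?_⟩
    · intro v
      have : down (∅ : Finset (V × V)) v = ∅ := by ext; simp
      rw [this]; simp; linarith
    · intro v
      have : up (∅ : Finset (V × V)) v = ∅ := by ext; simp
      rw [this]; simp; linarith
  -- a maximal low position
  classical
  obtain ⟨P, hPlow, hPmax⟩ : ∃ P, low P ∧ ∀ Q, low Q → Q.card ≤ P.card := by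
    have hne : (univ.filter low).Nonempty := ⟨∅, by simpa using hlow0⟩
    obtain ⟨P, hP, hmax⟩ := exists_max_image (univ.filter low) Finset.card hne
    refine ⟨P, by simpa using hP, fun Q hQ => hmax Q (by simpa using hQ)⟩
  obtain ⟨hP, hPT, hPD, hPU⟩ := hPlow
  -- gap for low positions
  have gapD : ∀ v, ((down P v).card : ℝ) + 1 ≤ β - q := by
    intro v
    have h1 := LD P hP v
    have h2 := hPD v
    by_contra h3
    push Not at h3
    have h4 : ((down P v).card + 1 - β) ^ 2 < q ^ 2 := by
      apply sq_lt_sq'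
      · linarith
      · linarith
    linarith
  have gapU : ∀ v, ((up P v).card : ℝ) + 1 ≤ β - q := by
    intro v
    have h1 := LU P hP v
    have h2 := hPU v
    by_contra h3
    push Not at h3
    have h4 : ((up P v).card + 1 - β) ^ 2 < q ^ 2 := by
      apply sq_lt_sq'
      · linarith
      · linarith
    linarith
  -- P is not full
  obtain ⟨v0⟩ := id hV
  have hincomp : ∃ a c, a ≠ c ∧ (a, c) ∉ P ∧ (c, a) ∉ P := by
    by_contra hno
    push Not at hno
    have h1 : univ = insert v0 (down P v0 ∪ up P v0) := by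
      symm
      rw [eq_univ_iff_forall]
      intro w
      by_cases hw : w = v0
      · simp [hw]
      · simp only [mem_insert, mem_union, mem_down, mem_up]
        right
        by_cases h2 : (w, v0) ∈ P
        · exact Or.inl h2
        · exact Or.inr (hno w v0 hw h2)
    have h2 : Fintype.card V ≤ (down P v0).card + (up P v0).card + 1 := by
      rw [← card_univ, h1]
      refine (card_insert_le _ _).trans ?_
      have := card_union_le (down P v0) (up P v0)
      omega
    have h3 : N ≤ (down P v0).card + (up P v0).card + 1 := by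
      rw [hN]; exact_mod_cast h2
    have h4 := gapD v0
    have h5 := gapU v0
    rw [hq] at h4 h5
    linarith
  obtain ⟨a, c, hac, h1, h2⟩ := hincomp
  obtain ⟨Q, hQ, hPQ, hacQ, hQc⟩ := hB.ext P hP a c hac h1 h2
  have hlt : P.card < Q.card := card_lt_card (by
    rw [Finset.ssubset_iff_of_subset hPQ]; exact ⟨_, hacQ, h1⟩)
  have hQcR : (Q.card : ℝ) ≤ P.card + b + 1 := by exact_mod_cast hQc
  -- Q is above the threshold
  have hQT : (N - β) ^ 2 - q ^ 2 < 2 * (Q.card : ℝ) := by
    by_contra h3
    push Not at h3
    have hQlow : low Q := by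
      refine ⟨hQ, h3, ?_, ?_⟩
      · intro v
        by_contra h4
        push Not at h4
        have h5 := LD Q hQ v
        have h6 : q ^ 2 ≤ ((down Q v).card + 1 - β) ^ 2 := by linarith
        have h7 : q ≤ (down Q v).card + 1 - β := le_of_sq_le_sq h6 (by linarith)
        have h8 : ((down Q v).card : ℝ) + P.card ≤ (down P v).card + Q.card := by
          exact_mod_cast down_growth hPQ v
        have h9 := gapD v
        rw [hq, hβ] at h7 h9
        linarith
      · intro v
        by_contra h4
        push Not at h4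
        have h5 := LU Q hQ v
        have h6 : q ^ 2 ≤ ((up Q v).card + 1 - β) ^ 2 := by linarith
        have h7 : q ≤ (up Q v).card + 1 - β := le_of_sq_le_sq h6 (by linarith)
        have h8 : ((up Q v).card : ℝ) + P.card ≤ (up P v).card + Q.card := by
          exact_mod_cast up_growth hPQ v
        have h9 := gapU v
        rw [hq, hβ] at h7 h9
        linarith
    have := hPmax Q hQlow
    omega
  -- conclusion from NEST
  obtain ⟨yD, -, hyD⟩ := exists_max_image (univ : Finset V) (fun w => (down P w).card)
    univ_nonempty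
  obtain ⟨yU, -, hyU⟩ := exists_max_image (univ : Finset V) (fun w => (up P w).card)
    univ_nonempty
  have h3 := card_le_of_nest hB hP (down P yD).card (up P yU).card
    (fun w => hyD w (mem_univ w)) (fun w => hyU w (mem_univ w)) hV
  have h4 := gapD yD
  have h5 := gapU yU
  have h6 : ((down P yD).card : ℝ) ≤ β / 3 := by rw [hq] at h4; linarith
  have h7 : ((up P yU).card : ℝ) ≤ β / 3 := by rw [hq] at h5; linarith
  have h8 : ((down P yD).card : ℝ) * (up P yU).card ≤ (β / 3) * (β / 3) :=
    mul_le_mul h6 h7 (by positivity) (by linarith)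
  rw [← hN] at h3
  nlinarith [h3, h8, hQT, hQcR, hcon]

end Pool.Agent.Helper51_OCG
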