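import Pool.Agent.Helper51_OCG.Game

/-!
OMaker wins the biased oriented-cycle game for all biases up to `(3 - √6 - o(1)) n`, under the
monotone rules and under the strict rules.
-/

namespace Pool.Agent.Helper51_OCG.MakerBoundOld

open Finset Pool.Agent.Helper51_OCG

/-- the elementary inequality behind the asymptotic statement -/
lemma numeric {ε n b : ℝ} (hε : 0 < ε) (hn : 64 / ε ^ 2 + 26 / ε + 10 ≤ n) (hb : 1 ≤ b)
    (hbn : b ≤ (3 - Real.sqrt 6 - ε) * n) :
    b + 3 / 2 < n ∧ 2 * (b + 1) + 2 * ((b + 3 / 2) / 3) ^ 2 + 2 * (n * Real.sqrt (b + 1)) <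
      (n - (b + 3 / 2)) ^ 2 - (2 * (b + 3 / 2) / 3 + 1) ^ 2 := by
  have h6 : Real.sqrt 6 ^ 2 = 6 := Real.sq_sqrt (by norm_num)
  set s := Real.sqrt 6 with hs
  have hs0 : 0 ≤ s := Real.sqrt_nonneg _
  have hs1 : 2.4 < s := by nlinarith
  have hs2 : s < 2.5 := by nlinarith
  have h26 : 0 < 26 / ε := by positivity
  have h64 : 0 < 64 / ε ^ 2 := by positivity
  have hn10 : 10 < n := by linarith
  have hn0 : 0 < n := by linarith
  have hb6 : b ≤ 0.6 * n := by
    have h1 : (3 - s - ε) * n ≤ 0.6 * n := mul_le_mul_of_nonneg_right (by linarith) hn0.le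
    linarith
  have hεn : 26 + 10 * ε ≤ ε * n := by
    have h1 : ε * (64 / ε ^ 2 + 26 / ε + 10) ≤ ε * n := mul_le_mul_of_nonneg_left hn hε.le
    have h2 : ε * (26 / ε) = 26 := by field_simp
    have h3 : 0 < ε * (64 / ε ^ 2) := by positivity
    nlinarith
  have hsq : 8 / ε ≤ Real.sqrt n := by
    apply Real.le_sqrt_of_sq_le
    have : (8 / ε) ^ 2 = 64 / ε ^ 2 := by ring
    rw [this]; linarith
  have hn2 : Real.sqrt n ^ 2 = n := Real.sq_sqrt hn0.le
  have hsn : 0 < Real.sqrt n := Real.sqrt_pos.mpr hn0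
  have h8 : 8 * Real.sqrt n ≤ ε * n := by
    have h1 : 8 ≤ ε * Real.sqrt n := by
      have h2 := mul_le_mul_of_nonneg_left hsq hε.le
      have h3 : ε * (8 / ε) = 8 := by field_simp
      linarith
    calc 8 * Real.sqrt n ≤ (ε * Real.sqrt n) * Real.sqrt n :=
          mul_le_mul_of_nonneg_right h1 hsn.le
      _ = ε * n := by rw [mul_assoc, ← sq, hn2]
  have hroot : Real.sqrt (b + 1) ≤ Real.sqrt n := Real.sqrt_le_sqrt (by linarith)
  refine ⟨by linarith, ?_⟩
  have hr0 : 0 ≤ Real.sqrt (b + 1) := Real.sqrt_nonneg _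
  have hmul : n * Real.sqrt (b + 1) ≤ n * Real.sqrt n := mul_le_mul_of_nonneg_left hroot hn0.le
  -- factorisation with r = s / 3
  have hf : (n - (b + 3 / 2)) ^ 2 - 2 / 3 * (b + 3 / 2) ^ 2 =
      (n - (1 + s / 3) * (b + 3 / 2)) * (n - (1 - s / 3) * (b + 3 / 2)) := by
    have : (2 : ℝ) / 3 = (s / 3) ^ 2 := by rw [div_pow, h6]; norm_num
    rw [this]; ring
  have h1 : ε * n - 3 ≤ n - (1 + s / 3) * (b + 3 / 2) := by
    have h2 : (1 + s / 3) * b ≤ (1 + s / 3) * ((3 - s - ε) * n) :=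
      mul_le_mul_of_nonneg_left hbn (by linarith)
    have h3 : (1 + s / 3) * ((3 - s - ε) * n) = n - (1 + s / 3) * (ε * n) := by
      have : (1 + s / 3) * (3 - s) = 1 := by nlinarith [h6]
      calc (1 + s / 3) * ((3 - s - ε) * n)
          = ((1 + s / 3) * (3 - s)) * n - (1 + s / 3) * (ε * n) := by ring
        _ = n - (1 + s / 3) * (ε * n) := by rw [this, one_mul]
    have h4 : 0 ≤ (s / 3) * (ε * n) := by positivity
    have h5 : (1 + s / 3) * (3 / 2) ≤ 3 := by linarith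
    have h6' : (1 + s / 3) * (b + 3 / 2) = (1 + s / 3) * b + (1 + s / 3) * (3 / 2) := by ring
    have h7' : (1 + s / 3) * (ε * n) = ε * n + (s / 3) * (ε * n) := by ring
    linarith
  have h2 : n / 2 ≤ n - (1 - s / 3) * (b + 3 / 2) := by
    have h3 : (1 - s / 3) * (b + 3 / 2) ≤ 0.2 * (b + 3 / 2) :=
      mul_le_mul_of_nonneg_right (by linarith) (by linarith)
    linarith
  have h3 : (ε * n - 3) * (n / 2) ≤
      (n - (1 + s / 3) * (b + 3 / 2)) * (n - (1 - s / 3) * (b + 3 / 2)) :=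
    mul_le_mul h1 h2 (by linarith) (by linarith)
  have h5 : 2 * Real.sqrt n + 5 ≤ (ε * n - 3) / 2 := by linarith
  have h4 : (2 * Real.sqrt n + 5) * n ≤ (ε * n - 3) * (n / 2) := by
    calc (2 * Real.sqrt n + 5) * n ≤ ((ε * n - 3) / 2) * n :=
          mul_le_mul_of_nonneg_right h5 hn0.le
      _ = (ε * n - 3) * (n / 2) := by ring
  have h7 : (n - (b + 3 / 2)) ^ 2 - (2 * (b + 3 / 2) / 3 + 1) ^ 2 -
      (2 * (b + 1) + 2 * ((b + 3 / 2) / 3) ^ 2) =
      ((n - (b + 3 / 2)) ^ 2 - 2 / 3 * (b + 3 / 2) ^ 2) - (10 / 3 * b + 5) := by ring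
  rw [hf] at h7
  have h9 : (2 * Real.sqrt n + 5) * n = 2 * (n * Real.sqrt n) + 5 * n := by ring
  linarith

/-- For every `ε > 0` and all large `n`, OMaker wins the `b`-biased oriented-cycle game on `K_n`
under the monotone rules and under the strict rules, whenever `1 ≤ b ≤ (3 - √6 - ε) n`. -/
theorem result (ε : ℝ) (hε : 0 < ε) :
    ∃ n₀ : ℕ, ∀ n ≥ n₀, ∀ b : ℕ, 1 ≤ b → (b : ℝ) ≤ (3 - Real.sqrt 6 - ε) * n →
      OMakerWins (monotoneRule b) (∅ : Position n) ∧
      OMakerWins (strictRule b) (∅ : Position n) := by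
  obtain ⟨n₀, hn₀⟩ := exists_nat_ge (64 / ε ^ 2 + 26 / ε + 10)
  refine ⟨n₀, fun n hn b hb hbn => ?_⟩
  have hnR : 64 / ε ^ 2 + 26 / ε + 10 ≤ (n : ℝ) := hn₀.trans (by exact_mod_cast hn)
  obtain ⟨h1, h2⟩ := numeric hε hnR (by exact_mod_cast hb) hbn
  have hn1 : 1 < Fintype.card (Fin n) := by
    rw [Fintype.card_fin]
    have : (1 : ℝ) < n := by
      have : (1 : ℝ) ≤ b := by exact_mod_cast hb
      linarith
    exact_mod_cast this
  have key : ∀ rule : ℕ → ℕ → Prop, (∀ r s, rule r s → s ≤ b) →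
      OMakerWins rule (∅ : Position n) := by
    intro rule hrule
    by_contra hno
    have h3 := no_alive (lost_alive hrule hno) hn1 (by rw [Fintype.card_fin]; exact h1)
    rw [Fintype.card_fin] at h3
    linarith
  exact ⟨key _ fun r s h => h.2, key _ fun r s h => by rw [h]; exact min_le_left _ _⟩

end Pool.Agent.Helper51_OCG.MakerBoundOld
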